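import Pool.Agent.H7.GF.Basic
import Pool.Agent.H7.GF.Targets1

/-!
# MP_cd65c5_nt, modules FIB and FIB3: polynomials of the box in a given field
-/

set_option autoImplicit false

namespace Pool.Agent.H95.GF

open Polynomial NumberField Module Pool.Agent.H7.GF

lemma minpoly_field {K : Type} [Field K] [NumberField K] (α : 𝓞 K) :
    minpoly ℚ (α : K) = (minpoly ℤ α).map (algebraMap ℤ ℚ) :=
  minpoly.isIntegrallyClosed_eq_field_fractions ℚ K (RingOfIntegers.isIntegral α)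

lemma exists_algHom {K F : Type} [Field K] [NumberField K] [Field F] [NumberField F]
    (α : 𝓞 K) (β : 𝓞 F) (h : minpoly ℤ α = minpoly ℤ β)
    (hd : (minpoly ℤ α).natDegree = finrank ℚ K) : Nonempty (K →ₐ[ℚ] F) := by
  have h1 : minpoly ℚ (α : K) = minpoly ℚ (β : F) := by
    rw [minpoly_field, minpoly_field, h]
  have hm : (minpoly ℤ α).Monic := minpoly.monic (RingOfIntegers.isIntegral α)
  have h2 : IntermediateField.adjoin ℚ {(α : K)} = ⊤ := by
    rw [Field.primitive_element_iff_minpoly_natDegree_eq, minpoly_field, hm.natDegree_map, hd]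
  have hi : IsIntegral ℚ (α : K) := IsIntegral.of_finite ℚ _
  have h3 : (β : F) ∈ (minpoly ℚ (α : K)).aroots F := by
    rw [mem_aroots]
    refine ⟨minpoly.ne_zero hi, ?_⟩
    rw [h1]
    exact minpoly.aeval ℚ (β : F)
  let e := (IntermediateField.algHomAdjoinIntegralEquiv (K := F) ℚ hi).symm ⟨(β : F), h3⟩
  refine ⟨e.comp ?_⟩
  rw [h2]
  exact IntermediateField.topEquiv.symm.toAlgHom

lemma transfer {F : Type} [Field F] [NumberField F] (β : 𝓞 F) (f : ℤ[X]) (h : SameField f (minpoly ℤ β)) :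
    ∃ θ : 𝓞 F, minpoly ℤ θ = f := by
  obtain ⟨K, _, _, θ, α, h1, h2, h3, h4⟩ := h
  obtain ⟨φ⟩ := exists_algHom α β h2 (by rw [h2]; exact h4)
  refine ⟨RingOfIntegers.mapAlgHom φ θ, ?_⟩
  rw [← h1]
  have := minpoly.algHom_eq ((RingOfIntegers.mapAlgHom φ : 𝓞 K →ₐ[𝓞 ℚ] 𝓞 F) : 𝓞 K →+* 𝓞 F).toIntAlgHom
    (by
      intro x y hxy
      have h5 : (((RingOfIntegers.mapAlgHom φ x : 𝓞 F)) : F) = ((RingOfIntegers.mapAlgHom φ y : 𝓞 F) : F) :=
        congrArg (fun z : 𝓞 F => (z : F)) hxy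
      have h6 : φ (x : K) = φ (y : K) := h5
      exact RingOfIntegers.ext (φ.injective h6)) θ
  exact this

/-- the injection of the set of polynomials into the set of integers of the field -/
lemma count {m H : ℕ} (b : ℤ) (h2 : T_ROOTB) {F : Type} [Field F] [NumberField F] (β : 𝓞 F)
    (hF : (minpoly ℤ β).natDegree = finrank ℚ F)
    (hfin : {γ : 𝓞 F | |Algebra.norm ℤ γ| = |b| ∧
      ∀ w : InfinitePlace F, w (γ : F) ≤ H + |(b : ℝ)| + 1}.Finite) :
    cnt m H (fun a => SameField (pol b a) (minpoly ℤ β)) ≤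
      ({γ : 𝓞 F | |Algebra.norm ℤ γ| = |b| ∧
        ∀ w : InfinitePlace F, w (γ : F) ≤ H + |(b : ℝ)| + 1}.ncard : ℝ) := by
  classical
  rw [cnt, Nat.cast_le]
  choose! θ hθ using fun (a : Fin m → ℤ) (h : SameField (pol b a) (minpoly ℤ β)) =>
    transfer β (pol b a) h
  have hfr : ∀ a : Fin m → ℤ, SameField (pol b a) (minpoly ℤ β) → finrank ℚ F = m + 1 := by
    intro a ha
    obtain ⟨K, _, _, θ, α, h1, h2, h3, h4⟩ := ha
    rw [← hF, h4, ← h3, pol_natDegree]
  refine Set.ncard_le_ncard_of_injOn θ ?_ ?_ hfin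
  · intro a ha
    obtain ⟨h3, h4⟩ := h2 m H b a ha.1 F (θ a) (hθ a ha.2) (hfr a ha.2)
    exact ⟨h4, h3⟩
  · intro a ha a' ha' hEq
    have h3 := hθ a ha.2
    have h4 := hθ a' ha'.2
    apply pol_injective b
    rw [← h3, ← h4, hEq]

theorem fib (h1 : T_NORMB) (h2 : T_ROOTB) : T_FIB := by
  intro m hm b hb
  obtain ⟨K, hK⟩ := h1 (m + 1) (by omega) b hb
  -- `log (H + |b| + 1) ≤ K' log H`
  have hlog : ∃ L : ℝ, 0 ≤ L ∧ ∀ H : ℕ, 2 ≤ H → Real.log ((H : ℝ) + |(b : ℝ)| + 1) ≤ L * Real.log H := by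
    refine ⟨1 + Real.log (|(b : ℝ)| + 2) / Real.log 2, ?_, ?_⟩
    · have h3 : 0 ≤ Real.log (|(b : ℝ)| + 2) := Real.log_nonneg (by have := abs_nonneg (b : ℝ); linarith)
      have h4 : 0 < Real.log 2 := Real.log_pos (by norm_num)
      positivity
    · intro H hH
      have hHr : (2 : ℝ) ≤ (H : ℝ) := by exact_mod_cast hH
      have hb0 := abs_nonneg (b : ℝ)
      have h3 : 0 ≤ Real.log (|(b : ℝ)| + 2) := Real.log_nonneg (by linarith)
      have h4 : 0 < Real.log 2 := Real.log_pos (by norm_num)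
      have h5 : Real.log 2 ≤ Real.log H := Real.log_le_log (by norm_num) hHr
      have h6 : (H : ℝ) + |(b : ℝ)| + 1 ≤ H * (|(b : ℝ)| + 2) := by nlinarith
      have h7 : Real.log ((H : ℝ) + |(b : ℝ)| + 1) ≤ Real.log H + Real.log (|(b : ℝ)| + 2) := by
        rw [← Real.log_mul (by linarith) (by linarith)]
        exact Real.log_le_log (by linarith) h6
      have h8 : Real.log (|(b : ℝ)| + 2) ≤ Real.log (|(b : ℝ)| + 2) / Real.log 2 * Real.log H := by
        rw [div_mul_eq_mul_div, le_div_iff₀ h4]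
        exact mul_le_mul_of_nonneg_left h5 h3
      linarith
  obtain ⟨L, hL0, hL⟩ := hlog
  refine ⟨|K| * L ^ m, ?_⟩
  intro H hH g
  have hHr : (2 : ℝ) ≤ (H : ℝ) := by exact_mod_cast hH
  have hlogH : 0 ≤ Real.log H := Real.log_nonneg (by linarith)
  by_cases hne : ∃ a, a ∈ box m H ∧ SameField (pol b a) g
  · obtain ⟨a0, _, F, _, _, θ, β, h3, h4, h5, h6⟩ := hne
    subst h4
    have hfr : finrank ℚ F = m + 1 := by rw [← h5, pol_natDegree]
    have hb0 := abs_nonneg (b : ℝ)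
    obtain ⟨hfin, hcard⟩ := hK F hfr ((H : ℝ) + |(b : ℝ)| + 1) (by linarith)
    refine (count b h2 β h6 hfin).trans (hcard.trans ?_)
    have h7 : 0 ≤ Real.log ((H : ℝ) + |(b : ℝ)| + 1) := Real.log_nonneg (by linarith)
    rw [Nat.add_sub_cancel]
    calc K * Real.log ((H : ℝ) + |(b : ℝ)| + 1) ^ m ≤ |K| * (L * Real.log H) ^ m :=
          mul_le_mul (le_abs_self K) (pow_le_pow_left₀ h7 (hL H hH) m) (by positivity) (abs_nonneg K)
      _ = |K| * L ^ m * Real.log H ^ m := by rw [mul_pow]; ring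
  · have h3 : {a | a ∈ box m H ∧ SameField (pol b a) g} = ∅ := by
      ext a
      simp only [Set.mem_ofPred_eq, Set.mem_empty_iff_false, iff_false]
      exact fun h => hne ⟨a, h⟩
    rw [cnt, h3]
    simp only [Set.ncard_empty, Nat.cast_zero]
    positivity

theorem fib3 (h1 : T_GAP3) (h2 : T_ROOTB) (h3 : T_NORMB) : T_FIB3 := by
  intro b hb
  obtain ⟨K, hK⟩ := h1 b hb
  obtain ⟨K2, hK2⟩ := h3 3 (by norm_num) b hb
  refine ⟨max K (|(b : ℝ)| + 2), ?_⟩
  intro H hH g D hg hD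
  have hHr : (2 : ℝ) ≤ (H : ℝ) := by exact_mod_cast hH
  have hb0 := abs_nonneg (b : ℝ)
  have hKpos : 0 ≤ max K (|(b : ℝ)| + 2) := le_max_of_le_right (by linarith)
  by_cases hne : ∃ a, a ∈ box 2 H ∧ SameField (pol b a) g
  · obtain ⟨a0, _, F, _, _, θ, β, h4, h5, h6, h7⟩ := hne
    subst h5
    have hfr : finrank ℚ F = 3 := by rw [← h6, pol_natDegree]
    -- the discriminant
    have hdisc : (discr F).natAbs = D := by
      obtain ⟨K', _, _, α, hα, hα2, hα3⟩ := hg
      obtain ⟨φ⟩ := exists_algHom α β hα (by rw [hα]; exact hα2)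
      have hfr' : finrank ℚ K' = finrank ℚ F := by rw [← hα2, h7]
      have hbij : Function.Bijective φ := by
        refine ⟨φ.injective, ?_⟩
        have hinj : Function.Injective φ.toLinearMap := φ.injective
        exact (LinearMap.injective_iff_surjective_of_finrank_eq_finrank hfr').1 hinj
      rw [← hα3, ← NumberField.discr_eq_discr_of_algEquiv K' (AlgEquiv.ofBijective φ hbij)]
    obtain ⟨hfin, _⟩ := hK2 F hfr ((H : ℝ) + |(b : ℝ)| + 1) (by linarith)
    refine (count b h2 β h7 hfin).trans ((hK F hfr ((H : ℝ) + |(b : ℝ)| + 1) (by linarith) ?_).trans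
      (le_max_left _ _))
    rw [hdisc]
    refine le_trans ?_ hD
    have h8 : (H : ℝ) + |(b : ℝ)| + 1 ≤ (|(b : ℝ)| + 2) * H := by nlinarith
    calc ((H : ℝ) + |(b : ℝ)| + 1) ^ (1 / 2 : ℝ) ≤ ((|(b : ℝ)| + 2) * H) ^ (1 / 2 : ℝ) :=
          Real.rpow_le_rpow (by linarith) h8 (by norm_num)
      _ = (|(b : ℝ)| + 2) ^ (1 / 2 : ℝ) * (H : ℝ) ^ (1 / 2 : ℝ) :=
          Real.mul_rpow (by linarith) (by linarith)
      _ ≤ (|(b : ℝ)| + 2) ^ (1 : ℝ) * (H : ℝ) ^ (1 / 2 : ℝ) := by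
          refine mul_le_mul_of_nonneg_right ?_ (Real.rpow_nonneg (by linarith) _)
          exact Real.rpow_le_rpow_of_exponent_le (by linarith) (by norm_num)
      _ ≤ _ := by
          rw [Real.rpow_one]
          exact mul_le_mul_of_nonneg_right (le_max_right _ _) (Real.rpow_nonneg (by linarith) _)
  · have h4 : {a | a ∈ box 2 H ∧ SameField (pol b a) g} = ∅ := by
      ext a
      simp only [Set.mem_ofPred_eq, Set.mem_empty_iff_false, iff_false]
      exact fun h => hne ⟨a, h⟩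
    rw [cnt, h4]
    simpa using hKpos

end Pool.Agent.H95.GF
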