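import Pool.Agent.H95.GF.RED
import Pool.Agent.H7.GF.Targets3

/-!
# MP_cd65c5_nt, module I6A: sextic fields with a proper subfield
-/

set_option autoImplicit false

namespace Pool.Agent.H95.GF

open Polynomial NumberField Module Pool.Agent.H7.GF

lemma exists_algHom_root {E K L : Type*} [Field E] [Field K] [Field L] [Algebra E K] [Algebra E L]
    [FiniteDimensional E K] (x : K) (hx : IntermediateField.adjoin E {x} = ⊤) (z : L)
    (hz : aeval z (minpoly E x) = 0) : ∃ τ : K →ₐ[E] L, τ x = z := by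
  have hi : IsIntegral E x := IsIntegral.of_finite E _
  have h3 : z ∈ (minpoly E x).aroots L := by
    rw [mem_aroots]
    exact ⟨minpoly.ne_zero hi, hz⟩
  let e := (IntermediateField.algHomAdjoinIntegralEquiv (K := L) E hi).symm ⟨z, h3⟩
  have he : e (IntermediateField.AdjoinSimple.gen E x) = z :=
    IntermediateField.algHomAdjoinIntegralEquiv_symm_apply_gen E hi ⟨z, h3⟩
  let i : K →ₐ[E] IntermediateField.adjoin E {x} :=
    (IntermediateField.inclusion (le_of_eq hx.symm)).comp IntermediateField.topEquiv.symm.toAlgHom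
  refine ⟨e.comp i, ?_⟩
  have hi2 : i x = IntermediateField.AdjoinSimple.gen E x := by
    apply Subtype.ext
    rfl
  rw [AlgHom.comp_apply, hi2, he]

section norm

variable {E K : Type} [Field E] [NumberField E] [Field K] [NumberField K] [Algebra E K]

omit [NumberField K] in
lemma minpoly_rel (θ : 𝓞 K) : minpoly E (θ : K) = (minpoly (𝓞 E) θ).map (algebraMap (𝓞 E) E) :=
  minpoly.isIntegrallyClosed_eq_field_fractions E K (Algebra.IsIntegral.isIntegral θ)

omit [NumberField E] [NumberField K] in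
lemma monic_rel (θ : 𝓞 K) : (minpoly (𝓞 E) θ).Monic :=
  minpoly.monic (Algebra.IsIntegral.isIntegral θ)

lemma adjoin_top (θ : 𝓞 K) (hprim : finrank ℚ K = (minpoly ℤ θ).natDegree) :
    IntermediateField.adjoin ℚ {(θ : K)} = ⊤ := by
  have hm : (minpoly ℤ θ).Monic := minpoly.monic (RingOfIntegers.isIntegral θ)
  rw [Field.primitive_element_iff_minpoly_natDegree_eq,
    show minpoly ℚ (θ : K) = (minpoly ℤ θ).map (algebraMap ℤ ℚ) from
      minpoly.isIntegrallyClosed_eq_field_fractions ℚ K (RingOfIntegers.isIntegral θ),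
    hm.natDegree_map, hprim]

lemma adjoin_rel_top (θ : 𝓞 K) (hprim : finrank ℚ K = (minpoly ℤ θ).natDegree) :
    IntermediateField.adjoin E {(θ : K)} = ⊤ :=
  IntermediateField.adjoin_eq_top_of_adjoin_eq_top ℚ (adjoin_top θ hprim)

lemma natDegree_rel (θ : 𝓞 K) (hprim : finrank ℚ K = (minpoly ℤ θ).natDegree) :
    (minpoly (𝓞 E) θ).natDegree = finrank E K := by
  have h1 := (Field.primitive_element_iff_minpoly_natDegree_eq E (θ : K)).1 (adjoin_rel_top θ hprim)
  rw [minpoly_rel, (monic_rel θ).natDegree_map] at h1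
  exact h1

/-- the minimal polynomial is the product of the conjugates of the relative minimal polynomial -/
lemma norm_form (θ : 𝓞 K) (hprim : finrank ℚ K = (minpoly ℤ θ).natDegree) :
    (minpoly ℤ θ).map (Int.castRingHom ℂ) =
      ∏ σ : E →+* ℂ, (minpoly (𝓞 E) θ).map (σ.comp (algebraMap (𝓞 E) E)) := by
  have hm : (minpoly ℤ θ).Monic := minpoly.monic (RingOfIntegers.isIntegral θ)
  have hq : (minpoly (𝓞 E) θ).Monic := monic_rel θ
  have hmap : ∀ σ : E →+* ℂ, (minpoly (𝓞 E) θ).map (σ.comp (algebraMap (𝓞 E) E)) =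
      (minpoly E (θ : K)).map σ := by
    intro σ
    rw [minpoly_rel, Polynomial.map_map]
  have hdvd : ∀ σ : E →+* ℂ, (minpoly (𝓞 E) θ).map (σ.comp (algebraMap (𝓞 E) E)) ∣
      (minpoly ℤ θ).map (Int.castRingHom ℂ) := by
    intro σ
    rw [hmap]
    have h1 : minpoly E (θ : K) ∣ (minpoly ℚ (θ : K)).map (algebraMap ℚ E) :=
      minpoly.dvd_map_of_isScalarTower ℚ E (θ : K)
    have h2 := (Polynomial.map_dvd_map' σ).2 h1
    rw [show minpoly ℚ (θ : K) = (minpoly ℤ θ).map (algebraMap ℤ ℚ) from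
      minpoly.isIntegrallyClosed_eq_field_fractions ℚ K (RingOfIntegers.isIntegral θ),
      Polynomial.map_map, Polynomial.map_map] at h2
    have h3 : ((σ.comp (algebraMap ℚ E)).comp (algebraMap ℤ ℚ)) = Int.castRingHom ℂ :=
      RingHom.ext_int _ _
    rwa [h3] at h2
  have hcop : ∀ σ σ' : E →+* ℂ, σ ≠ σ' →
      IsCoprime ((minpoly (𝓞 E) θ).map (σ.comp (algebraMap (𝓞 E) E)))
        ((minpoly (𝓞 E) θ).map (σ'.comp (algebraMap (𝓞 E) E))) := by
    intro σ σ' hne
    rw [Polynomial.isCoprime_iff_aeval_ne_zero_of_isAlgClosed (k := ℂ) (K := ℂ)]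
    intro z
    by_contra hcon
    push Not at hcon
    obtain ⟨h1, h2⟩ := hcon
    rw [hmap, coe_aeval_eq_eval, eval_map] at h1 h2
    have key : ∀ ρ : E →+* ℂ, eval₂ ρ z (minpoly E (θ : K)) = 0 → ∃ τ : K →+* ℂ,
        τ.comp (algebraMap E K) = ρ ∧ τ (θ : K) = z := by
      intro ρ hρ
      let _ : Algebra E ℂ := ρ.toAlgebra
      obtain ⟨τ, hτ⟩ := exists_algHom_root (E := E) (L := ℂ) (θ : K) (adjoin_rel_top θ hprim) z hρ
      exact ⟨τ.toRingHom, τ.comp_algebraMap, hτ⟩
    obtain ⟨τ, h3, h4⟩ := key σ h1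
    obtain ⟨τ', h5, h6⟩ := key σ' h2
    apply hne
    rw [← h3, ← h5]
    have h7 : τ.toRatAlgHom = τ'.toRatAlgHom := by
      refine (Field.primitive_element_iff_algHom_eq_of_eval ℚ ℂ
        (fun x => IsAlgClosed.splits _) (θ : K) τ.toRatAlgHom).1 (adjoin_top θ hprim) _ ?_
      show τ (θ : K) = τ' (θ : K)
      rw [h4, h6]
    have h8 : τ = τ' := by
      ext x
      exact congrArg (fun φ : K →ₐ[ℚ] ℂ => φ x) h7
    rw [h8]
  have hprod : ∏ σ : E →+* ℂ, (minpoly (𝓞 E) θ).map (σ.comp (algebraMap (𝓞 E) E)) ∣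
      (minpoly ℤ θ).map (Int.castRingHom ℂ) :=
    Finset.prod_dvd_of_coprime (fun σ _ σ' _ hne => hcop σ σ' hne) fun σ _ => hdvd σ
  have hmonic : (∏ σ : E →+* ℂ, (minpoly (𝓞 E) θ).map (σ.comp (algebraMap (𝓞 E) E))).Monic :=
    monic_prod_of_monic _ _ fun σ _ => hq.map _
  refine eq_of_monic_of_dvd_of_natDegree_le hmonic (hm.map _) hprod ?_
  rw [natDegree_prod_of_monic _ _ fun σ _ => hq.map _]
  simp_rw [hq.natDegree_map]
  rw [Finset.sum_const, Finset.card_univ, Embeddings.card, natDegree_rel θ hprim, smul_eq_mul,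
    finrank_mul_finrank, hm.natDegree_map, hprim]

end norm

lemma mahler_conj (p : ℂ[X]) : (p.map (starRingEnd ℂ)).mahlerMeasure = p.mahlerMeasure := by
  rw [mahlerMeasure_eq_leadingCoeff_mul_prod_roots, mahlerMeasure_eq_leadingCoeff_mul_prod_roots,
    (IsAlgClosed.splits p).roots_map, leadingCoeff_map, Multiset.map_map]
  simp

section places

variable {E : Type} [Field E] [NumberField E]

omit [NumberField E] in
lemma mahler_mk (q : (𝓞 E)[X]) (σ : E →+* ℂ) :
    (q.map ((InfinitePlace.mk σ).embedding.comp (algebraMap (𝓞 E) E))).mahlerMeasure =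
      (q.map (σ.comp (algebraMap (𝓞 E) E))).mahlerMeasure := by
  have h1 : InfinitePlace.mk (InfinitePlace.mk σ).embedding = InfinitePlace.mk σ :=
    InfinitePlace.mk_embedding _
  rcases InfinitePlace.mk_eq_iff.1 h1 with h | h
  · rw [h]
  · have h2 : σ.comp (algebraMap (𝓞 E) E) =
        (starRingEnd ℂ).comp ((InfinitePlace.mk σ).embedding.comp (algebraMap (𝓞 E) E)) := by
      rw [← RingHom.comp_assoc]
      congr 1
      exact h.symm
    conv_rhs => rw [h2, ← Polynomial.map_map, mahler_conj]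

lemma prod_mahler (q : (𝓞 E)[X]) :
    ∏ w : InfinitePlace E, (q.map (w.embedding.comp (algebraMap (𝓞 E) E))).mahlerMeasure ^ w.mult =
      (∏ σ : E →+* ℂ, q.map (σ.comp (algebraMap (𝓞 E) E))).mahlerMeasure := by
  classical
  have h1 : (∏ σ : E →+* ℂ, q.map (σ.comp (algebraMap (𝓞 E) E))).mahlerMeasure =
      ∏ σ : E →+* ℂ, (q.map (σ.comp (algebraMap (𝓞 E) E))).mahlerMeasure := by
    induction (Finset.univ : Finset (E →+* ℂ)) using Finset.induction_on with
    | empty => simp
    | insert σ s hs ih => rw [Finset.prod_insert hs, Finset.prod_insert hs, mahlerMeasure_mul, ih]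
  rw [h1, ← Finset.prod_fiberwise Finset.univ (fun σ : E →+* ℂ => InfinitePlace.mk σ)]
  refine Finset.prod_congr rfl fun w _ => ?_
  rw [← InfinitePlace.card_filter_mk_eq w, ← Finset.prod_const]
  refine Finset.prod_congr rfl fun σ hσ => ?_
  rw [Finset.mem_filter] at hσ
  rw [← hσ.2, mahler_mk]

end places

theorem i6a : T_I6A := by
  intro b H a hb hH ha hf
  obtain ⟨K, _, _, θ, hθ, hdeg, hnot⟩ := hf
  rw [pol_natDegree] at hdeg
  unfold NoInt at hnot
  push Not at hnot
  obtain ⟨E, hE1, hE2⟩ := hnot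
  have hprim : finrank ℚ K = (minpoly ℤ θ).natDegree := by rw [hθ, pol_natDegree, hdeg]
  have hmul : finrank ℚ E * finrank E K = 6 := by rw [finrank_mul_finrank, ← hdeg]
  have hd1 : finrank ℚ E ≠ 1 := fun h => hE1 (IntermediateField.finrank_eq_one_iff.1 h)
  have hr1 : finrank E K ≠ 1 := fun h => hE2 (by
    exact (IntermediateField.finrank_eq_one_iff_eq_top).1 h)
  have hd : finrank ℚ E = 2 ∨ finrank ℚ E = 3 := by
    have h1 : finrank ℚ E ∣ 6 := ⟨_, hmul.symm⟩
    have h2 : finrank ℚ E ≤ 6 := Nat.le_of_dvd (by norm_num) h1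
    have h3 : 0 < finrank ℚ E := finrank_pos
    generalize finrank ℚ E = d at *
    generalize finrank E K = r at *
    interval_cases d <;> omega
  have hr : finrank E K ≤ 3 := by
    rcases hd with h | h <;> rw [h] at hmul <;> omega
  set q : (𝓞 E)[X] := minpoly (𝓞 E) θ with hqdef
  have hq : q.Monic := monic_rel θ
  have hqd : q.natDegree = finrank E K := natDegree_rel θ hprim
  have hnf := norm_form (E := E) θ hprim
  rw [hθ] at hnf
  have hM1 : ∀ w : InfinitePlace E,
      1 ≤ (q.map (w.embedding.comp (algebraMap (𝓞 E) E))).mahlerMeasure := by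
    intro w
    apply one_le_mahlerMeasure_of_one_le_norm_leadingCoeff
    rw [(hq.map _).leadingCoeff, norm_one]
  refine ⟨E, inferInstance, inferInstance, finrank ℚ E, finrank E K, fun i => q.coeff i,
    fun w => (q.map (w.embedding.comp (algebraMap (𝓞 E) E))).mahlerMeasure, rfl, hmul, hd, hM1,
    ?_, ?_, ?_⟩
  · rw [prod_mahler, ← hnf]
    refine (mahler_pol_le ha).trans ?_
    have h1 : (1 : ℝ) ≤ (H : ℝ) := by exact_mod_cast hH
    have h2 := abs_nonneg (b : ℝ)
    push_cast
    linarith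
  · intro i w
    have h1 := norm_coeff_le_choose_mul_mahlerMeasure (i : ℕ)
      (q.map (w.embedding.comp (algebraMap (𝓞 E) E)))
    rw [coeff_map, hq.natDegree_map] at h1
    have h2 : ‖(w.embedding.comp (algebraMap (𝓞 E) E)) (q.coeff i)‖ = w ((q.coeff i : 𝓞 E) : E) :=
      InfinitePlace.norm_embedding_eq w _
    rw [h2] at h1
    refine h1.trans (mul_le_mul_of_nonneg_right ?_ (mahlerMeasure_nonneg _))
    have h3 : (q.natDegree.choose i) ≤ 8 := by
      calc q.natDegree.choose i ≤ 2 ^ q.natDegree := Nat.choose_le_two_pow _ _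
        _ ≤ 2 ^ 3 := Nat.pow_le_pow_right (by norm_num) (by rw [hqd]; exact hr)
        _ = 8 := by norm_num
    exact_mod_cast h3
  · rw [hnf]
    refine Finset.prod_congr rfl fun σ _ => ?_
    have h1 := (hq.map (σ.comp (algebraMap (𝓞 E) E))).as_sum
    rw [hq.natDegree_map, hqd] at h1
    rw [h1, Finset.sum_range]
    congr 1
    refine Finset.sum_congr rfl fun i _ => ?_
    rw [coeff_map]
    rfl

end Pool.Agent.H95.GF
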