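import Pool.Agent.H7.GF.Basic
import Pool.Agent.H7.GF.Targets1

/-!
# MP_cd65c5_nt, module RED: reducible polynomials of the box
-/

set_option autoImplicit false

namespace Pool.Agent.H95.GF

open Polynomial Pool.Agent.H7.GF

lemma pol_coeff_abs_le {m H : ℕ} {b : ℤ} {a : Fin m → ℤ} (ha : a ∈ box m H) (i : ℕ) :
    |(pol b a).coeff i| ≤ H + |b| + 1 := by
  have hb := abs_nonneg b
  have hH : (0 : ℤ) ≤ H := Int.natCast_nonneg H
  rcases Nat.eq_zero_or_pos i with rfl | hi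
  · rw [pol_coeff_zero]; linarith
  · rcases Nat.lt_or_ge i (m + 1) with h1 | h1
    · obtain ⟨j, rfl⟩ : ∃ j, i = j + 1 := ⟨i - 1, by omega⟩
      have h2 := pol_coeff_succ b a ⟨j, by omega⟩
      simp only at h2
      rw [h2]
      have := mem_box.1 ha ⟨j, by omega⟩
      linarith
    · rcases Nat.eq_or_lt_of_le h1 with h2 | h2
      · have h3 := (pol_monic b a).coeff_natDegree
        rw [pol_natDegree, h2] at h3
        rw [h3, abs_one]; linarith
      · rw [coeff_eq_zero_of_natDegree_lt (by rw [pol_natDegree]; exact h2), abs_zero]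
        linarith

lemma mahler_pol_le {m H : ℕ} {b : ℤ} {a : Fin m → ℤ} (ha : a ∈ box m H) :
    ((pol b a).map (Int.castRingHom ℂ)).mahlerMeasure ≤ (m + 2) * ((H : ℝ) + |(b : ℝ)| + 1) := by
  refine (mahlerMeasure_le_sum_norm_coeff _).trans ?_
  rw [Polynomial.sum_over_range _ (by simp)]
  have hd : ((pol b a).map (Int.castRingHom ℂ)).natDegree = m + 1 := by
    rw [(pol_monic b a).natDegree_map, pol_natDegree]
  rw [hd]
  refine (Finset.sum_le_sum (g := fun _ => ((H : ℝ) + |(b : ℝ)| + 1)) ?_).trans ?_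
  · intro i _
    rw [coeff_map, eq_intCast, Complex.norm_intCast]
    exact_mod_cast pol_coeff_abs_le ha i
  · rw [Finset.sum_const, Finset.card_range, nsmul_eq_mul]
    push_cast
    linarith

lemma coeff_mul_coeff_le {m H : ℕ} {b : ℤ} {a : Fin m → ℤ} (ha : a ∈ box m H) {g h : ℤ[X]}
    (hgh : g * h = pol b a) (hg : g.Monic) (hh : h.Monic) (i j : ℕ) :
    (g.coeff i).natAbs * (h.coeff j).natAbs ≤
      2 ^ (m + 1) * ((m + 2) * (H + b.natAbs + 1)) := by
  have hdeg : g.natDegree + h.natDegree = m + 1 := by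
    rw [← hg.natDegree_mul hh, hgh, pol_natDegree]
  have key : ∀ (q : ℤ[X]) (i : ℕ), q.Monic → ((q.coeff i).natAbs : ℝ) ≤
      2 ^ q.natDegree * (q.map (Int.castRingHom ℂ)).mahlerMeasure := by
    intro q i hq
    have h1 := norm_coeff_le_choose_mul_mahlerMeasure i (q.map (Int.castRingHom ℂ))
    rw [coeff_map, eq_intCast, Complex.norm_intCast, hq.natDegree_map] at h1
    rw [Nat.cast_natAbs]
    push_cast
    refine h1.trans (mul_le_mul_of_nonneg_right ?_ (mahlerMeasure_nonneg _))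
    exact_mod_cast Nat.choose_le_two_pow q.natDegree i
  have h1 := key g i hg
  have h2 := key h j hh
  have h3 : (g.map (Int.castRingHom ℂ)).mahlerMeasure * (h.map (Int.castRingHom ℂ)).mahlerMeasure ≤
      (m + 2) * ((H : ℝ) + |(b : ℝ)| + 1) := by
    rw [← mahlerMeasure_mul, ← Polynomial.map_mul, hgh]
    exact mahler_pol_le ha
  have h4 : ((g.coeff i).natAbs : ℝ) * ((h.coeff j).natAbs : ℝ) ≤
      2 ^ (m + 1) * ((m + 2) * ((H : ℝ) + |(b : ℝ)| + 1)) := by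
    calc ((g.coeff i).natAbs : ℝ) * ((h.coeff j).natAbs : ℝ) ≤
        (2 ^ g.natDegree * (g.map (Int.castRingHom ℂ)).mahlerMeasure) *
          (2 ^ h.natDegree * (h.map (Int.castRingHom ℂ)).mahlerMeasure) :=
          mul_le_mul h1 h2 (Nat.cast_nonneg _) (mul_nonneg (by positivity) (mahlerMeasure_nonneg _))
      _ = 2 ^ (m + 1) * ((g.map (Int.castRingHom ℂ)).mahlerMeasure *
          (h.map (Int.castRingHom ℂ)).mahlerMeasure) := by rw [← hdeg, pow_add]; ring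
      _ ≤ _ := mul_le_mul_of_nonneg_left h3 (by positivity)
  have h5 : ((|b| : ℤ) : ℝ) = ((b.natAbs : ℕ) : ℝ) := by rw [Nat.cast_natAbs]
  rw [← Int.cast_abs, h5] at h4
  exact_mod_cast h4

/-- parameters of a factorisation -/
noncomputable def PX (b : ℤ) (s t N x : ℕ) : Finset (ℤ × ℤ × (Fin s → ℤ) × (Fin t → ℤ)) :=
  (Finset.Icc (-(b.natAbs : ℤ)) (b.natAbs : ℤ)) ×ˢ (Finset.Icc (-(b.natAbs : ℤ)) (b.natAbs : ℤ)) ×ˢ
    (Fintype.piFinset fun _ => Finset.Icc (-(x : ℤ)) x) ×ˢ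
    (Fintype.piFinset fun _ => Finset.Icc (-((N / x : ℕ) : ℤ)) ((N / x : ℕ) : ℤ))

lemma card_PX (b : ℤ) (s t N x : ℕ) : (PX b s t N x).card =
    (2 * b.natAbs + 1) ^ 2 * ((2 * x + 1) ^ s * (2 * (N / x) + 1) ^ t) := by
  rw [PX]
  simp only [Finset.card_product, Fintype.card_piFinset, Int.card_Icc, Finset.prod_const,
    Finset.card_univ, Fintype.card_fin]
  have h1 : ((b.natAbs : ℤ) + 1 - -(b.natAbs : ℤ)).toNat = 2 * b.natAbs + 1 := by omega
  have h2 : ((x : ℤ) + 1 - -(x : ℤ)).toNat = 2 * x + 1 := by omega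
  have h3 : (((N / x : ℕ) : ℤ) + 1 - -((N / x : ℕ) : ℤ)).toNat = 2 * (N / x) + 1 := by omega
  rw [h1, h2, h3]
  ring

lemma card_PX_le {b : ℤ} {s t N x : ℕ} (hst : s ≤ t) (hx : 1 ≤ x) (hxN : x ≤ N) :
    (PX b s t N x).card ≤ (2 * b.natAbs + 1) ^ 2 * (9 * N) ^ t := by
  rw [card_PX]
  refine Nat.mul_le_mul_left _ ?_
  have h1 : 1 ≤ N / x := (Nat.le_div_iff_mul_le (by omega)).2 (by omega)
  calc (2 * x + 1) ^ s * (2 * (N / x) + 1) ^ t ≤ (3 * x) ^ s * (3 * (N / x)) ^ t :=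
        Nat.mul_le_mul (Nat.pow_le_pow_left (by omega) _) (Nat.pow_le_pow_left (by omega) _)
    _ ≤ (3 * x) ^ t * (3 * (N / x)) ^ t :=
        Nat.mul_le_mul_right _ (Nat.pow_le_pow_right (by omega) hst)
    _ = (9 * (x * (N / x))) ^ t := by rw [← mul_pow]; ring_nf
    _ ≤ (9 * N) ^ t := Nat.pow_le_pow_left (Nat.mul_le_mul_left _ (Nat.mul_div_le N x)) _

lemma cnt_eq_le_one (m H : ℕ) (b : ℤ) (q : ℤ[X]) : cnt m H (fun a => pol b a = q) ≤ 1 := by
  rw [cnt]
  have h1 : {a | a ∈ box m H ∧ pol b a = q}.ncard ≤ 1 := by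
    rw [Set.ncard_le_one (cnt_finite m H _)]
    intro a ha a' ha'
    exact pol_injective b (ha.2.trans ha'.2.symm)
  exact_mod_cast h1

/-- a factorisation gives parameters -/
lemma exists_param {s t H : ℕ} {b : ℤ} (hb : b ≠ 0) {m : ℕ} (hm : m + 1 = (s + 1) + (t + 1))
    {a : Fin m → ℤ} (ha : a ∈ box m H) {g h : ℤ[X]} (hgh : g * h = pol b a) (hg : g.Monic)
    (hh : h.Monic) (hgd : g.natDegree = s + 1) (hhd : h.natDegree = t + 1) (N X₀ : ℕ)
    (hN : 2 ^ (m + 1) * ((m + 2) * (H + b.natAbs + 1)) ≤ N)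
    (hX : (s = 0 ∧ X₀ = b.natAbs) ∨ X₀ = N) :
    ∃ x ∈ Finset.Icc 1 X₀, ∃ p ∈ PX b s t N x, pol b a = pol p.1 p.2.2.1 * pol p.2.1 p.2.2.2 := by
  have hbpos : 1 ≤ b.natAbs := Int.natAbs_pos.2 hb
  have h0 : g.coeff 0 * h.coeff 0 = b := by
    rw [← mul_coeff_zero, hgh, pol_coeff_zero]
  have hg0 : (g.coeff 0).natAbs ≤ b.natAbs := by
    apply Nat.le_of_dvd hbpos
    rw [← h0, Int.natAbs_mul]
    exact dvd_mul_right _ _
  have hh0 : (h.coeff 0).natAbs ≤ b.natAbs := by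
    apply Nat.le_of_dvd hbpos
    rw [← h0, Int.natAbs_mul]
    exact dvd_mul_left _ _
  obtain ⟨i, hi, hx⟩ := Finset.exists_mem_eq_sup (Finset.range (s + 2)) ⟨0, by simp⟩
    (fun i => (g.coeff i).natAbs)
  set x : ℕ := (Finset.range (s + 2)).sup (fun i => (g.coeff i).natAbs) with hxdef
  have hle : ∀ j, j < s + 2 → (g.coeff j).natAbs ≤ x := fun j hj =>
    Finset.le_sup (f := fun i => (g.coeff i).natAbs) (Finset.mem_range.2 hj)
  have htop : g.coeff (s + 1) = 1 := by rw [← hgd]; exact hg.coeff_natDegree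
  have htoph : h.coeff (t + 1) = 1 := by rw [← hhd]; exact hh.coeff_natDegree
  have hx1 : 1 ≤ x := by
    have := hle (s + 1) (by omega)
    rw [htop] at this
    simpa using this
  have hprod : ∀ j, x * (h.coeff j).natAbs ≤ N := fun j => by
    rw [hx]
    exact (coeff_mul_coeff_le ha hgh hg hh i j).trans hN
  have hxN : x ≤ N := by
    have := hprod (t + 1)
    rw [htoph] at this
    simpa using this
  have hxX : x ≤ X₀ := by
    rcases hX with ⟨hs, hX⟩ | hX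
    · rw [hX, hx]
      subst hs
      have hi2 : i < 2 := by simpa using hi
      interval_cases i
      · exact hg0
      · show (g.coeff 1).natAbs ≤ b.natAbs
        have : g.coeff 1 = 1 := by simpa using htop
        rw [this]; simpa using hbpos
    · rw [hX]; exact hxN
  refine ⟨x, Finset.mem_Icc.2 ⟨hx1, hxX⟩, (g.coeff 0, h.coeff 0, (fun i : Fin s => g.coeff ((i : ℕ) + 1)),
    fun i : Fin t => h.coeff ((i : ℕ) + 1)), ?_, ?_⟩
  · simp only [PX, Finset.mem_product, Finset.mem_Icc, Fintype.mem_piFinset]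
    refine ⟨by omega, by omega, ?_, ?_⟩
    · intro j
      have := hle ((j : ℕ) + 1) (by have := j.2; omega)
      omega
    · intro j
      have h5 : (h.coeff ((j : ℕ) + 1)).natAbs ≤ N / x := by
        rw [Nat.le_div_iff_mul_le (by omega), mul_comm]
        exact hprod _
      generalize N / x = y at h5
      omega
  · rw [← hgh, ← eq_pol g hg hgd, ← eq_pol h hh hhd]

/-- factorisations of given degrees -/
lemma red_k (s t : ℕ) (hst : s ≤ t) (m : ℕ) (hm : m + 1 = (s + 1) + (t + 1)) (b : ℤ) (hb : b ≠ 0) :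
    ∃ K : ℝ, ∀ H : ℕ, 1 ≤ H → cnt m H (fun a => ∃ g h : ℤ[X], g * h = pol b a ∧ g.Monic ∧ h.Monic ∧
      g.natDegree = s + 1 ∧ h.natDegree = t + 1) ≤ K * (H : ℝ) ^ (m - 1) := by
  -- the constant
  set K₁ : ℕ := 2 ^ (m + 1) * ((m + 2) * (b.natAbs + 2)) with hK₁
  have hK₁pos : 1 ≤ K₁ := by rw [hK₁]; exact Nat.succ_le_of_lt (by positivity)
  have hN : ∀ H : ℕ, 1 ≤ H → 2 ^ (m + 1) * ((m + 2) * (H + b.natAbs + 1)) ≤ K₁ * H := by
    intro H hH
    rw [hK₁, mul_assoc, mul_assoc]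
    refine Nat.mul_le_mul_left _ (Nat.mul_le_mul_left _ ?_)
    have h1 := Nat.le_mul_of_pos_right b.natAbs (show 0 < H by omega)
    have h2 : (b.natAbs + 2) * H = b.natAbs * H + 2 * H := by ring
    rw [h2]
    omega
  -- the count
  have hcnt : ∀ (H X₀ : ℕ), 1 ≤ H → ((s = 0 ∧ X₀ = b.natAbs) ∨ X₀ = K₁ * H) → X₀ ≤ K₁ * H →
      cnt m H (fun a => ∃ g h : ℤ[X], g * h = pol b a ∧ g.Monic ∧ h.Monic ∧
      g.natDegree = s + 1 ∧ h.natDegree = t + 1) ≤
        ((X₀ * ((2 * b.natAbs + 1) ^ 2 * (9 * (K₁ * H)) ^ t) : ℕ) : ℝ) := by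
    intro H X₀ hH hX hX2
    have h1 : cnt m H (fun a => ∃ g h : ℤ[X], g * h = pol b a ∧ g.Monic ∧ h.Monic ∧
        g.natDegree = s + 1 ∧ h.natDegree = t + 1) ≤
        cnt m H (fun a => ∃ x ∈ Finset.Icc 1 X₀, ∃ p ∈ PX b s t (K₁ * H) x,
          pol b a = pol p.1 p.2.2.1 * pol p.2.1 p.2.2.2) := by
      apply cnt_mono
      rintro a ha ⟨g, h, hgh, hg, hh, hgd, hhd⟩
      exact exists_param hb hm ha hgh hg hh hgd hhd (K₁ * H) X₀ (hN H hH) hX
    refine h1.trans ((cnt_exists_le _ _).trans ?_)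
    have h2 : ∀ x ∈ Finset.Icc 1 X₀, cnt m H (fun a => ∃ p ∈ PX b s t (K₁ * H) x,
        pol b a = pol p.1 p.2.2.1 * pol p.2.1 p.2.2.2) ≤
        (((2 * b.natAbs + 1) ^ 2 * (9 * (K₁ * H)) ^ t : ℕ) : ℝ) := by
      intro x hx
      obtain ⟨hx1, hx2⟩ := Finset.mem_Icc.1 hx
      refine (cnt_exists_le _ _).trans ?_
      refine (Finset.sum_le_sum (g := fun _ => (1 : ℝ)) fun p _ => cnt_eq_le_one m H b _).trans ?_
      rw [Finset.sum_const, nsmul_eq_mul, mul_one]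
      exact_mod_cast card_PX_le hst hx1 (hx2.trans hX2)
    refine (Finset.sum_le_sum h2).trans ?_
    rw [Finset.sum_const, Nat.card_Icc, nsmul_eq_mul, Nat.add_sub_cancel]
    push_cast
    exact le_rfl
  rcases Nat.eq_zero_or_pos s with hs | hs
  · refine ⟨((b.natAbs * ((2 * b.natAbs + 1) ^ 2 * (9 * K₁) ^ t) : ℕ) : ℝ), ?_⟩
    intro H hH
    have h1 : b.natAbs ≤ K₁ * H := by
      have h2 := hN H hH
      have h3 : b.natAbs ≤ 2 ^ (m + 1) * ((m + 2) * (H + b.natAbs + 1)) := by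
        calc b.natAbs ≤ 1 * (1 * (H + b.natAbs + 1)) := by omega
          _ ≤ _ := Nat.mul_le_mul Nat.one_le_two_pow (Nat.mul_le_mul_right _ (by omega))
      exact h3.trans h2
    refine (hcnt H b.natAbs hH (Or.inl ⟨hs, rfl⟩) h1).trans ?_
    have h2 : m - 1 = t := by omega
    rw [h2]
    push_cast
    rw [show (9 * ((K₁ : ℝ) * H)) = (9 * K₁) * H by ring, mul_pow]
    ring_nf
    exact le_rfl
  · refine ⟨((K₁ * ((2 * b.natAbs + 1) ^ 2 * (9 * K₁) ^ t) : ℕ) : ℝ), ?_⟩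
    intro H hH
    refine (hcnt H (K₁ * H) hH (Or.inr rfl) le_rfl).trans ?_
    have h2 : t + 1 ≤ m - 1 := by omega
    have hH1 : (1 : ℝ) ≤ (H : ℝ) := by exact_mod_cast hH
    have h3 : (H : ℝ) ^ (t + 1) ≤ (H : ℝ) ^ (m - 1) := pow_le_pow_right₀ hH1 h2
    refine le_trans (le_of_eq ?_) (mul_le_mul_of_nonneg_left h3 (Nat.cast_nonneg _))
    push_cast
    rw [show (9 * ((K₁ : ℝ) * H)) = (9 * K₁) * H by ring, mul_pow]
    ring

theorem red : T_RED := by
  intro m hm b hb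
  choose K hK using fun (s : ℕ) (h : s ≤ m - 1 - s) (h2 : s ≤ m - 1) =>
    red_k s (m - 1 - s) h m (by omega) b hb
  refine ⟨∑ s ∈ Finset.range m, if h : s ≤ m - 1 - s ∧ s ≤ m - 1 then K s h.1 h.2 else 0, ?_⟩
  intro H hH
  rw [Finset.sum_mul]
  have h1 : cnt m H (fun a => ¬ Irreducible (toQ (pol b a))) ≤
      cnt m H (fun a => ∃ s ∈ Finset.range m, s ≤ m - 1 - s ∧ s ≤ m - 1 ∧
        ∃ g h : ℤ[X], g * h = pol b a ∧ g.Monic ∧ h.Monic ∧
          g.natDegree = s + 1 ∧ h.natDegree = (m - 1 - s) + 1) := by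
    apply cnt_mono
    intro a _ hirr
    have hmon := pol_monic b a
    have h2 : ¬ Irreducible (pol b a) := by
      intro h
      exact hirr ((Monic.irreducible_iff_irreducible_map_fraction_map (K := ℚ) hmon).1 h)
    have h3 : pol b a ≠ 1 := by
      intro h
      have := congrArg natDegree h
      rw [pol_natDegree, natDegree_one] at this
      omega
    rw [hmon.irreducible_iff_natDegree'] at h2
    push Not at h2
    obtain ⟨h, g, hh, hg, hgh, hd⟩ := h2 h3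
    rw [Finset.mem_Ioc, pol_natDegree] at hd
    have hdeg : h.natDegree + g.natDegree = m + 1 := by
      rw [← hh.natDegree_mul hg, hgh, pol_natDegree]
    refine ⟨g.natDegree - 1, Finset.mem_range.2 (by omega), by omega, by omega, g, h,
      by rw [mul_comm]; exact hgh, hg, hh, by omega, by omega⟩
  refine h1.trans ((cnt_exists_le _ _).trans (Finset.sum_le_sum ?_))
  intro s _
  by_cases hs : s ≤ m - 1 - s ∧ s ≤ m - 1
  · rw [dif_pos hs]
    refine le_trans (cnt_mono ?_) (hK s hs.1 hs.2 H hH)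
    rintro a _ ⟨_, _, h⟩
    exact h
  · rw [dif_neg hs, zero_mul]
    have h2 : {a | a ∈ box m H ∧ (s ≤ m - 1 - s ∧ s ≤ m - 1 ∧
        ∃ g h : ℤ[X], g * h = pol b a ∧ g.Monic ∧ h.Monic ∧
          g.natDegree = s + 1 ∧ h.natDegree = (m - 1 - s) + 1)} = ∅ := by
      ext a
      simp only [Set.mem_ofPred_eq, Set.mem_empty_iff_false, iff_false]
      rintro ⟨_, h3, h4, _⟩
      exact hs ⟨h3, h4⟩
    rw [cnt, h2]
    simp

end Pool.Agent.H95.GF
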